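import Pool.Agent.Helper77.SO.St

/-!
# MP_7a9ddc_co, project SO, module L2: lifting through a folding
-/

set_option autoImplicit false

namespace Pool.Agent.Helper8.SO.L2

open Equiv Equiv.Perm Pool.Agent.Helper35.PM Pool.Agent.Helper77.HY Pool.Agent.Helper77.OF4
  Pool.Agent.Helper77.SO

/-- two permutations which agree on an invariant set have the same powers there -/
theorem pow_agree {D : Type} (r s : Perm D) (P : D → Prop) (h1 : ∀ e, P e → r e = s e)
    (h2 : ∀ e, P e → P (s e)) (e : D) (he : P e) (n : ℕ) :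
    (r ^ n) e = (s ^ n) e ∧ P ((s ^ n) e) := by
  induction n with
  | zero => exact ⟨rfl, he⟩
  | succ n ih =>
    rw [pow_succ', Perm.mul_apply, ih.1, pow_succ', Perm.mul_apply]
    exact ⟨h1 _ ih.2, h2 _ ih.2⟩

theorem sameCycle_agree {D : Type} [Finite D] (r s : Perm D) (P : D → Prop)
    (h1 : ∀ e, P e → r e = s e) (h2 : ∀ e, P e → P (s e)) (e e' : D) (he : P e)
    (h : s.SameCycle e e') : r.SameCycle e e' := by
  obtain ⟨n, hn⟩ := h.exists_nat_pow_eq
  rw [← hn, ← (pow_agree r s P h1 h2 e he n).1]
  exact ⟨(n : ℤ), by rw [zpow_natCast]⟩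

theorem period_agree {D : Type} (r s : Perm D) (P : D → Prop) (h1 : ∀ e, P e → r e = s e)
    (h2 : ∀ e, P e → P (s e)) (e : D) (he : P e) :
    Function.minimalPeriod r e = Function.minimalPeriod s e := by
  rw [Function.minimalPeriod_eq_minimalPeriod_iff]
  intro n
  rw [Function.IsPeriodicPt, Function.IsPeriodicPt, Function.IsFixedPt, Function.IsFixedPt,
    Perm.iterate_eq_pow, Perm.iterate_eq_pow, (pow_agree r s P h1 h2 e he n).1]

theorem main : StL2 := by
  intro V D _ _ _ M d h W1 hQ
  obtain ⟨r', U, τ, Z, hPl, hr, hW, hτ, hZ, hι, hF, hST⟩ := hQ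
  set a : D := M.r.symm d with ha
  set b : D := M.ι (M.φ d) with hb
  have hta : M.t a = M.t d := by
    conv_rhs => rw [← M.r.apply_symm_apply d, M.t_r]
  have htb : M.t b = M.t (M.φ (M.φ d)) := by
    rw [hb, ← t_φ M (M.φ d)]
  have hab : a ≠ b := by
    intro h0
    exact h (by rw [← hta, ← htb, h0])
  have hM1r : ∀ e, (fold M d h).r e = M.r (swap a b e) := fun e => rfl
  have hM1t : ∀ e, (fold M d h).t e = pr (M.t d) (M.t (M.φ (M.φ d))) h (M.t e) := fun e => rfl
  have htab : (fold M d h).t a = (fold M d h).t b := by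
    rw [hM1t, hM1t, pr_iff]
    exact Or.inr ⟨Or.inl hta, Or.inr htb⟩
  have hτ' : ∀ e e', M.t e = M.t e' → τ e = τ e' := by
    intro e e' hee
    exact hτ e e' (by rw [hM1t, hM1t, hee])
  by_cases hcase : (fold M d h).t a ∈ W1
  · refine ⟨r', U, τ, Z, hPl, ?_, hW, hτ', hZ, hι, hF, hST⟩
    intro e he
    have he' : (fold M d h).t e ∉ W1 := he
    rw [hr e he', hM1r, swap_apply_of_ne_of_ne]
    · rintro rfl
      exact he' hcase
    · rintro rfl
      exact he' (htab ▸ hcase)
  · have hcase' : (fold M d h).t b ∉ W1 := htab ▸ hcase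
    have hswap : ∀ e, (fold M d h).t e ∉ W1 → (fold M d h).t (swap a b e) ∉ W1 := by
      intro e he
      by_cases h1 : e = a
      · rw [h1, swap_apply_left]; exact hcase'
      · by_cases h2 : e = b
        · rw [h2, swap_apply_right]; exact hcase
        · rw [swap_apply_of_ne_of_ne h1 h2]; exact he
    have hinv : ∀ e, (fold M d h).t e ∉ W1 → (fold M d h).t (r' e) ∉ W1 := by
      intro e he
      rw [hr e he, (fold M d h).t_r]; exact he
    have hinv' : ∀ e, (fold M d h).t e ∈ W1 → (fold M d h).t (r' e) ∈ W1 := by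
      intro e he
      by_contra hn
      have := perm_symm_on_of_perm_on_finite (f := r') (p := fun e => (fold M d h).t e ∉ W1)
        hinv hn
      rw [Equiv.symm_apply_apply] at this
      exact this he
    have hout : ∀ e, (fold M d h).t e ∉ W1 → (r' * swap a b) e = M.r e := by
      intro e he
      rw [Perm.mul_apply, hr _ (hswap e he), hM1r]
      congr 1
      by_cases h1 : e = a
      · rw [h1, swap_apply_left, swap_apply_right]
      · by_cases h2 : e = b
        · rw [h2, swap_apply_right, swap_apply_left]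
        · rw [swap_apply_of_ne_of_ne h1 h2, swap_apply_of_ne_of_ne h1 h2]
    have hin : ∀ e, (fold M d h).t e ∈ W1 → (r' * swap a b) e = r' e := by
      intro e he
      rw [Perm.mul_apply, swap_apply_of_ne_of_ne]
      · rintro rfl; exact hcase he
      · rintro rfl; exact hcase' he
    have hcyc : ∀ e e', (fold M d h).t e ∈ W1 → (fold M d h).t e' ∈ W1 →
        (r' * swap a b).SameCycle e e' := fun e e' he he' =>
      sameCycle_agree _ r' (fun e => (fold M d h).t e ∈ W1) hin hinv' e e' he (hW e e' he he')
    have hs : r'.SameCycle a b := by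
      refine sameCycle_agree r' (fold M d h).r (fun e => (fold M d h).t e ∉ W1) hr ?_ a b hcase
        ((fold M d h).trans a b htab)
      intro e he
      rw [(fold M d h).t_r]; exact he
    refine ⟨r' * swap a b, U, τ, Z, hPl.split hab hs, hout, hcyc, hτ', hZ, hι, hF, ?_⟩
    intro m k e heZ hk0 hkm hper hreach
    have heW : (fold M d h).t e ∈ W1 := (hZ e).mp heZ
    have hpw : ∀ n : ℕ, ((r' * swap a b) ^ n) e = (r' ^ n) e := fun n =>
      (pow_agree _ r' (fun e => (fold M d h).t e ∈ W1) hin hinv' e heW n).1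
    have hmp : Function.minimalPeriod (r' * swap a b : Perm D) e = Function.minimalPeriod r' e :=
      period_agree _ r' (fun e => (fold M d h).t e ∈ W1) hin hinv' e heW
    have hmain := hST m k e heZ hk0 hkm (by rw [hper, hmp])
      (fun i hi => by
        have := hreach i hi
        rw [hpw] at this
        exact this)
    simp only [hpw]
    exact hmain

end Pool.Agent.Helper8.SO.L2
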